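import Pool.Graph.R_seed8.R901.CA.Main

/-!
# A central element which lies in every subgroup of finite index

The relations of the Baumslag-Gersten group: `s a s⁻¹ = a²`, `t a t⁻¹ = s`.  In a finite group they
force `a = 1`.
-/

set_option autoImplicit false

namespace Pool.Agent.KS6_59.CE

/-- The relations `[a, b] = z`, `z` central, `s a s⁻¹ = a²`, `t a t⁻¹ = s`. -/
structure Rel4 {G : Type*} [Group G] (a b s t z : G) : Prop where
  comm : a * b = z * (b * a)
  central : ∀ g : G, z * g = g * z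
  conj : s * a * s⁻¹ = a ^ 2
  conj' : t * a * t⁻¹ = s

/-- The only number `n ≥ 1` which divides `2 ^ n - 1` is one. -/
theorem eq_one_of_two_pow {n : ℕ} (hn : n ≠ 0) (h : (n : ℤ) ∣ 2 ^ n - 1) : n = 1 := by
  by_contra h1
  have hp : n.minFac.Prime := Nat.minFac_prime h1
  haveI : Fact n.minFac.Prime := ⟨hp⟩
  have h2 : ((n.minFac : ℕ) : ℤ) ∣ 2 ^ n - 1 :=
    (Int.natCast_dvd_natCast.2 n.minFac_dvd).trans h
  have h3 : (2 : ZMod n.minFac) ^ n = 1 := by
    have h4 := (ZMod.intCast_zmod_eq_zero_iff_dvd _ _).2 h2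
    push_cast at h4
    exact sub_eq_zero.1 h4
  have h20 : (2 : ZMod n.minFac) ≠ 0 := by
    intro h0
    rw [h0, zero_pow hn] at h3
    exact zero_ne_one h3
  have h5 : (2 : ZMod n.minFac) ^ (n.minFac - 1) = 1 := ZMod.pow_card_sub_one_eq_one h20
  have h6 : orderOf (2 : ZMod n.minFac) ∣ n := orderOf_dvd_of_pow_eq_one h3
  have h7 : orderOf (2 : ZMod n.minFac) ∣ n.minFac - 1 := orderOf_dvd_of_pow_eq_one h5
  have h8 : Nat.Coprime n (n.minFac - 1) := by
    refine Nat.coprime_of_lt_minFac ?_ ?_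
    · have := hp.two_le
      omega
    · have := hp.two_le
      omega
  have h9 : orderOf (2 : ZMod n.minFac) = 1 := Nat.eq_one_of_dvd_coprimes h8 h6 h7
  rw [orderOf_eq_one_iff] at h9
  have h10 : (1 : ZMod n.minFac) = 0 := by linear_combination h9
  exact one_ne_zero h10

variable {G : Type*} [Group G] {a b s t z : G}

theorem conj_pow_iter (h : s * a * s⁻¹ = a ^ 2) (k : ℕ) : s ^ k * a * (s ^ k)⁻¹ = a ^ (2 ^ k) := by
  induction k with
  | zero => simp
  | succ k ih =>
    have h1 : s ^ (k + 1) * a * (s ^ (k + 1))⁻¹ = s ^ k * (s * a * s⁻¹) * (s ^ k)⁻¹ := by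
      rw [pow_succ]
      group
    rw [h1, h, ← conj_pow, ih, ← pow_mul, pow_succ]

/-- In a finite group, `s a s⁻¹ = a²` and `t a t⁻¹ = s` imply `a = 1`. -/
theorem eq_one_of_finite [Finite G] (h : s * a * s⁻¹ = a ^ 2) (h' : t * a * t⁻¹ = s) : a = 1 := by
  have h1 : orderOf s = orderOf a := by
    rw [← h']
    exact orderOf_injective (MulAut.conj t).toMonoidHom (MulAut.conj t).injective a
  have hpos : 0 < orderOf a := orderOf_pos a
  have h2 := conj_pow_iter h (orderOf a)
  have h3 : s ^ orderOf a = 1 := by rw [← h1]; exact pow_orderOf_eq_one s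
  rw [h3] at h2
  simp only [one_mul, inv_one, mul_one] at h2
  have h4 : (orderOf a : ℤ) ∣ 2 ^ orderOf a - 1 := by
    rw [orderOf_dvd_iff_zpow_eq_one, zpow_sub_one, mul_inv_eq_one]
    have h5 : a ^ ((2 : ℤ) ^ orderOf a) = a ^ (2 ^ orderOf a) := by
      rw [← zpow_natCast]
      norm_cast
    rw [h5]
    exact h2.symm
  exact orderOf_eq_one_iff.1 (eq_one_of_two_pow hpos.ne' h4)

theorem Rel4.map {G' : Type*} [Group G'] (h : Rel4 a b s t z) (f : G →* G')
    (hf : Function.Surjective f) : Rel4 (f a) (f b) (f s) (f t) (f z) where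
  comm := by rw [← map_mul, h.comm, map_mul, map_mul]
  central g := by
    obtain ⟨g, rfl⟩ := hf g
    rw [← map_mul, h.central, map_mul]
  conj := by rw [← map_mul, ← map_inv, ← map_mul, h.conj, map_pow]
  conj' := by rw [← map_mul, ← map_inv, ← map_mul, h.conj']

theorem Rel4.eq_one [Finite G] (h : Rel4 a b s t z) : z = 1 := by
  have h1 := h.comm
  rw [eq_one_of_finite h.conj h.conj', one_mul, mul_one] at h1
  exact (mul_eq_right.1 h1.symm)

/-- `z` is an element of every subgroup of finite index. -/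
theorem Rel4.mem (h : Rel4 a b s t z) (H : Subgroup G) [H.FiniteIndex] : z ∈ H := by
  have h1 : Rel4 (QuotientGroup.mk' H.normalCore a) (QuotientGroup.mk' H.normalCore b)
      (QuotientGroup.mk' H.normalCore s) (QuotientGroup.mk' H.normalCore t)
      (QuotientGroup.mk' H.normalCore z) := h.map _ (QuotientGroup.mk'_surjective _)
  have : Finite (G ⧸ H.normalCore) := Subgroup.finite_quotient_of_finiteIndex
  exact H.normalCore_le ((QuotientGroup.eq_one_iff _).1 h1.eq_one)

end Pool.Agent.KS6_59.CE
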