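import Pool.Agent.KS6_59.CE.Grp

/-!
# The manifold and the central element none of whose nonzero powers is realised
-/

set_option autoImplicit false

namespace Pool.Agent.KS6_59.CE

open Pool.Agent.R901.CA

universe u

/-! ### HNN extensions along two embeddings of one group -/

section Hnn

variable {K G : Type} [Group K] [Group G]

/-- The isomorphism between the images of two embeddings. -/
noncomputable def cyc (F F' : K →* G) (h : Function.Injective F) (h' : Function.Injective F') :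
    F.range ≃* F'.range :=
  (MonoidHom.ofInjective h).symm.trans (MonoidHom.ofInjective h')

theorem cyc_apply (F F' : K →* G) (h : Function.Injective F) (h' : Function.Injective F') (k : K) :
    (cyc F F' h h' ⟨F k, k, rfl⟩ : G) = F' k := by
  have h1 : (⟨F k, k, rfl⟩ : F.range) = MonoidHom.ofInjective h k := Subtype.ext rfl
  rw [h1]
  show ((MonoidHom.ofInjective h') ((MonoidHom.ofInjective h).symm (MonoidHom.ofInjective h k)) : G)
    = _
  rw [MulEquiv.symm_apply_apply]
  rfl

theorem t_mul (F F' : K →* G) (h : Function.Injective F) (h' : Function.Injective F') (k : K) :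
    (HNNExtension.t : HNNExtension G F.range F'.range (cyc F F' h h')) * HNNExtension.of (F k) =
      HNNExtension.of (F' k) * HNNExtension.t := by
  have h1 := HNNExtension.t_mul_of (φ := cyc F F' h h') ⟨F k, k, rfl⟩
  rw [cyc_apply] at h1
  exact h1

end Hnn

/-! ### The target group -/

section Target

variable {T : Type} [Group T] {a b s z : T}

theorem comm_zpow (h : Rel a b s z) (n : ℤ) : a ^ n * b * (a ^ n)⁻¹ = z ^ n * b := by
  have hab : a * b * a⁻¹ = z * b := by
    rw [h.comm]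
    group
  have hba : a⁻¹ * b * a = z⁻¹ * b := by
    have hz : Commute z⁻¹ a := (show Commute z a from h.central a).inv_left
    calc a⁻¹ * b * a = a⁻¹ * (z⁻¹ * (z * (b * a))) := by group
      _ = a⁻¹ * (z⁻¹ * (a * b)) := by rw [h.comm]
      _ = a⁻¹ * (z⁻¹ * a) * b := by group
      _ = a⁻¹ * (a * z⁻¹) * b := by rw [hz.eq]
      _ = z⁻¹ * b := by group
  induction n with
  | zero => simp
  | succ n ih =>
    have hz : Commute (z ^ (n : ℤ)) a := (show Commute z a from h.central a).zpow_left _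
    calc a ^ ((n : ℤ) + 1) * b * (a ^ ((n : ℤ) + 1))⁻¹
        = a * (a ^ (n : ℤ) * b * (a ^ (n : ℤ))⁻¹) * a⁻¹ := by rw [zpow_add_one]; group
      _ = a * (z ^ (n : ℤ) * b) * a⁻¹ := by rw [ih]
      _ = z ^ (n : ℤ) * (a * b * a⁻¹) := by rw [← mul_assoc a, ← hz.eq]; group
      _ = z ^ ((n : ℤ) + 1) * b := by rw [hab, zpow_add_one, mul_assoc]
  | pred n ih =>
    have hz : Commute (z ^ (-(n : ℤ))) a⁻¹ :=
      ((show Commute z a from h.central a).zpow_left _).inv_right
    calc a ^ (-(n : ℤ) - 1) * b * (a ^ (-(n : ℤ) - 1))⁻¹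
        = a⁻¹ * (a ^ (-(n : ℤ)) * b * (a ^ (-(n : ℤ)))⁻¹) * a := by rw [zpow_sub_one]; group
      _ = a⁻¹ * (z ^ (-(n : ℤ)) * b) * a := by rw [ih]
      _ = z ^ (-(n : ℤ)) * (a⁻¹ * b * a) := by rw [← mul_assoc a⁻¹, ← hz.eq]; group
      _ = z ^ (-(n : ℤ) - 1) * b := by rw [hba, zpow_sub_one, mul_assoc]

theorem zpow_ne {z : T} (hz : ∀ n : ℕ, n ≠ 0 → z ^ n ≠ 1) {n : ℤ} (h : z ^ n = 1) : n = 0 := by
  by_contra hn
  rcases Int.natAbs_eq n with h1 | h1
  · rw [h1, zpow_natCast] at h
    exact hz _ (by omega) h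
  · rw [h1, zpow_neg, inv_eq_one, zpow_natCast] at h
    exact hz _ (by omega) h

theorem indep_a (h : Rel a b s z) (hz : ∀ n : ℕ, n ≠ 0 → z ^ n ≠ 1) {m n : ℤ}
    (h1 : a ^ m * z ^ n = 1) : m = 0 ∧ n = 0 := by
  have h2 : a ^ m = z ^ (-n) := by rw [zpow_neg]; exact eq_inv_of_mul_eq_one_left h1
  have h3 := comm_zpow h m
  have h4 : Commute (z ^ (-n)) b := (show Commute z b from h.central b).zpow_left _
  rw [h2, h4.eq, mul_assoc, mul_inv_cancel, mul_one] at h3
  have h5 : z ^ m = 1 := mul_eq_right.1 h3.symm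
  have h6 := zpow_ne hz h5
  subst h6
  rw [zpow_zero, one_mul] at h1
  exact ⟨rfl, zpow_ne hz h1⟩

theorem indep_s (h : Rel a b s z) (hz : ∀ n : ℕ, n ≠ 0 → z ^ n ≠ 1) {m n : ℤ}
    (h1 : s ^ m * z ^ n = 1) : m = 0 ∧ n = 0 := by
  have h2 : s ^ m = z ^ (-n) := by rw [zpow_neg]; exact eq_inv_of_mul_eq_one_left h1
  have h4 : Commute (s ^ m) a := by
    rw [h2]; exact (show Commute z a from h.central a).zpow_left _
  have h5 : Commute (s ^ m.natAbs) a := by
    rcases Int.natAbs_eq m with h6 | h6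
    · rw [h6, zpow_natCast] at h4
      exact h4
    · rw [h6, zpow_neg, zpow_natCast] at h4
      simpa using h4.inv_left
  have h7 := conj_pow_iter h.conj m.natAbs
  rw [h5.eq, mul_assoc, mul_inv_cancel, mul_one] at h7
  have h8 : a ^ ((2 : ℤ) ^ m.natAbs - 1) * z ^ (0 : ℤ) = 1 := by
    rw [zpow_zero, mul_one, zpow_sub_one, mul_inv_eq_one]
    have h9 : a ^ ((2 : ℤ) ^ m.natAbs) = a ^ (2 ^ m.natAbs) := by
      rw [← zpow_natCast]
      norm_cast
    rw [h9]
    exact h7.symm
  have h10 := (indep_a h hz h8).1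
  have h11 : m = 0 := by
    by_contra h12
    have h13 : 2 ≤ (2 : ℤ) ^ m.natAbs := by
      have : m.natAbs ≠ 0 := by omega
      calc (2 : ℤ) = 2 ^ 1 := by norm_num
        _ ≤ 2 ^ m.natAbs := pow_le_pow_right₀ (by norm_num) (by omega)
    omega
  subst h11
  rw [zpow_zero, one_mul] at h1
  exact ⟨rfl, zpow_ne hz h1⟩

/-- The homomorphism `(m, n) ↦ x ^ m z ^ n`. -/
def two (x z : T) (h : Commute x z) : Multiplicative ℤ × Multiplicative ℤ →* T :=
  MonoidHom.noncommCoprod (zpowersHom T x) (zpowersHom T z) (by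
    intro m n
    rw [zpowersHom_apply, zpowersHom_apply]
    exact h.zpow_zpow _ _)

theorem two_apply (x z : T) (h : Commute x z) (m n : Multiplicative ℤ) :
    two x z h (m, n) = x ^ Multiplicative.toAdd m * z ^ Multiplicative.toAdd n := by
  show zpowersHom T x m * zpowersHom T z n = _
  rw [zpowersHom_apply, zpowersHom_apply]

theorem two_injective (x z : T) (h : Commute x z)
    (hi : ∀ m n : ℤ, x ^ m * z ^ n = 1 → m = 0 ∧ n = 0) : Function.Injective (two x z h) := by
  rw [injective_iff_map_eq_one]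
  rintro ⟨m, n⟩ h1
  rw [two_apply] at h1
  obtain ⟨h2, h3⟩ := hi _ _ h1
  exact Prod.ext h2 h3

theorem exists_rel4 : ∃ (T : Type) (_ : Group T) (a b s t z : T), Rel4 a b s t z ∧
    ∀ n : ℕ, n ≠ 0 → z ^ n ≠ 1 := by
  obtain ⟨T, _, a, b, s, z, h, hz⟩ := exists_rel
  have ha : Commute a z := (h.central a).symm
  have hs : Commute s z := (h.central s).symm
  have Ia := two_injective a z ha fun m n h1 => indep_a h hz h1
  have Is := two_injective s z hs fun m n h1 => indep_s h hz h1
  let X := HNNExtension T (two a z ha).range (two s z hs).range (cyc _ _ Ia Is)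
  have t1 : (HNNExtension.t : X) * HNNExtension.of a = HNNExtension.of s * HNNExtension.t := by
    have h1 := t_mul _ _ Ia Is (Multiplicative.ofAdd 1, 1)
    rw [two_apply, two_apply] at h1
    simpa using h1
  have t2 : (HNNExtension.t : X) * HNNExtension.of z = HNNExtension.of z * HNNExtension.t := by
    have h1 := t_mul _ _ Ia Is (1, Multiplicative.ofAdd 1)
    rw [two_apply, two_apply] at h1
    simpa using h1
  refine ⟨X, inferInstance, HNNExtension.of a, HNNExtension.of b, HNNExtension.of s,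
    HNNExtension.t, HNNExtension.of z, ⟨?_, ?_, ?_, ?_⟩, ?_⟩
  · rw [← map_mul, ← map_mul, ← map_mul, h.comm]
  · intro g
    refine HNNExtension.induction_on g ?_ ?_ ?_ ?_
    · intro x
      rw [← map_mul, ← map_mul, h.central]
    · exact t2.symm
    · intro x y hx hy
      rw [← mul_assoc, hx, mul_assoc, hy, mul_assoc]
    · intro x hx
      exact (show Commute _ x from hx).inv_right.eq
  · rw [← map_inv, ← map_mul, ← map_mul, ← map_pow, h.conj]
  · rw [mul_inv_eq_iff_eq_mul, t1]
  · intro n hn h1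
    rw [← map_pow] at h1
    exact hz n hn (HNNExtension.of_injective _ (h1.trans (map_one _).symm))

end Target

/-! ### The base group -/

theorem zpowersHom_injective {G : Type} [Group G] {x : G} (hx : ∀ n : ℤ, x ^ n = 1 → n = 0) :
    Function.Injective (zpowersHom G x) := by
  rw [injective_iff_map_eq_one]
  intro n h
  rw [zpowersHom_apply] at h
  exact hx _ h

theorem ga_inf (n : ℤ) (h : (HNNExtension.of ga : BaseGroup) ^ n = 1) : n = 0 := by
  rw [← map_zpow] at h
  have h1 := HNNExtension.of_injective _ (h.trans (map_one _).symm)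
  have h2 := congrArg (fun x : Multiplicative ℤ × Multiplicative ℤ => Multiplicative.toAdd x.1) h1
  simpa [ga] using h2

theorem t_inf (n : ℤ) (h : (HNNExtension.t : BaseGroup) ^ n = 1) : n = 0 := by
  obtain ⟨f, -, -, h3⟩ := exists_hom (1 : Multiplicative ℤ) 1 (Multiplicative.ofAdd (1 : ℤ))
    rfl (by simp)
  have h1 := congrArg f h
  rw [map_zpow, h3, map_one f, ← ofAdd_zsmul] at h1
  have h2 := congrArg Multiplicative.toAdd h1
  rw [toAdd_ofAdd, toAdd_one] at h2
  simpa using h2

/-- The group `⟨a, b, s, t | [a, b] = 1, s a s⁻¹ = a², t a t⁻¹ = s⟩`. -/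
abbrev Big : Type :=
  HNNExtension BaseGroup (zpowersHom BaseGroup (HNNExtension.of ga)).range
    (zpowersHom BaseGroup HNNExtension.t).range
    (cyc _ _ (zpowersHom_injective ga_inf) (zpowersHom_injective t_inf))

/-- The generators. -/
noncomputable def xa : Big := HNNExtension.of (HNNExtension.of ga)
/-- The generators. -/
noncomputable def xb : Big := HNNExtension.of (HNNExtension.of gb)
/-- The generators. -/
noncomputable def xs : Big := HNNExtension.of HNNExtension.t
/-- The generators. -/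
noncomputable def xt : Big := HNNExtension.t

theorem big_comm : xa * xb = xb * xa := by
  rw [xa, xb, ← map_mul, base_comm, map_mul]

theorem big_conj : xs * xa * xs⁻¹ = xa ^ 2 := by
  rw [xa, xs, ← map_inv, ← map_mul, ← map_mul, base_conj, map_pow]

theorem big_conj' : xt * xa * xt⁻¹ = xs := by
  have h1 := t_mul _ _ (zpowersHom_injective ga_inf) (zpowersHom_injective t_inf)
    (Multiplicative.ofAdd 1)
  rw [zpowersHom_apply, zpowersHom_apply] at h1
  rw [mul_inv_eq_iff_eq_mul, xa, xs, xt]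
  simpa using h1

theorem exists_hom4 {Q : Type} [Group Q] (a b s t : Q) (hab : a * b = b * a)
    (hs : s * a * s⁻¹ = a ^ 2) (ht : t * a * t⁻¹ = s) :
    ∃ f : Big →* Q, f xa = a ∧ f xb = b ∧ f xs = s ∧ f xt = t := by
  obtain ⟨f, h1, h2, h3⟩ := exists_hom a b s hab hs
  have hx : ∀ x : (zpowersHom BaseGroup (HNNExtension.of ga)).range,
      t * f ↑x = f (cyc _ _ (zpowersHom_injective ga_inf) (zpowersHom_injective t_inf) x :
        BaseGroup) * t := by
    rintro ⟨x, m, rfl⟩
    rw [cyc_apply]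
    show t * f (zpowersHom BaseGroup (HNNExtension.of ga) m) = _
    rw [zpowersHom_apply, zpowersHom_apply, map_zpow, map_zpow, h1, h3,
      ← mul_inv_eq_iff_eq_mul, ← conj_zpow, ht]
  refine ⟨HNNExtension.lift f t hx, ?_, ?_, ?_, ?_⟩
  · rw [xa, HNNExtension.lift_of, h1]
  · rw [xb, HNNExtension.lift_of, h2]
  · rw [xs, HNNExtension.lift_of, h3]
  · rw [xt, HNNExtension.lift_t]

theorem finiteType_big (𝒯 : Manifolds.{u}) : 𝒯.FiniteType Big :=
  𝒯.finiteType_hnn _ _ _ 𝒯.finiteType_base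
    (𝒯.finiteType_congr (MonoidHom.ofInjective (zpowersHom_injective ga_inf)) 𝒯.finiteType_int)

/-! ### The manifold -/

/-- There are a closed oriented aspherical manifold `M` and a central element `z` of infinite order
such that `z` is an element of every subgroup of finite index, and such that no power of `z`
other than `1`, `z`, `z⁻¹` is realised by a principal `S¹`-action on a finite covering of `M`. -/
theorem exists_manifold4 (𝒯 : Manifolds.{u}) : ∃ (M : 𝒯.Mfd) (z : 𝒯.π M),
    (∀ x, z * x = x * z) ∧ (∀ n : ℕ, n ≠ 0 → z ^ n ≠ 1) ∧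
    (∀ H : Subgroup (𝒯.π M), H.FiniteIndex → z ∈ H) ∧
    ∀ H : Subgroup (𝒯.π M), H.FiniteIndex → ∀ k : ℤ, k ≠ 0 → k ≠ 1 → k ≠ -1 →
      ¬ 𝒯.Realised M H (z ^ k) := by
  obtain ⟨N, i, r, hri⟩ := 𝒯.davis (finiteType_big 𝒯)
  obtain ⟨T, _, a, b, s, t, z, hrel, hz⟩ := exists_rel4
  have hnormal : (Subgroup.zpowers z).Normal := by
    refine ⟨?_⟩
    rintro _ ⟨k, rfl⟩ g
    have h1 : g * z ^ k * g⁻¹ = z ^ k := by
      have : Commute (z ^ k) g := (show Commute z g from hrel.central g).zpow_left k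
      rw [← this.eq, mul_assoc, mul_inv_cancel, mul_one]
    show g * z ^ k * g⁻¹ ∈ Subgroup.zpowers z
    rw [h1]
    exact ⟨k, rfl⟩
  let p : T →* T ⧸ Subgroup.zpowers z := QuotientGroup.mk' _
  have hp : ∀ t, p t = 1 ↔ t ∈ Subgroup.zpowers z := fun t => QuotientGroup.eq_one_iff t
  have hpz : p z = 1 := (hp z).2 (Subgroup.mem_zpowers z)
  obtain ⟨f, hfa, hfb, hfs, hft⟩ := exists_hom4 (p a) (p b) (p s) (p t)
    (by rw [← map_mul, hrel.comm, map_mul, hpz, one_mul, map_mul])
    (by rw [← map_inv, ← map_mul, ← map_mul, hrel.conj, map_pow])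
    (by rw [← map_inv, ← map_mul, ← map_mul, hrel.conj'])
  let E : Subgroup (𝒯.π N × T) :=
    ((f.comp r).comp (MonoidHom.fst (𝒯.π N) T)).eqLocus (p.comp (MonoidHom.snd (𝒯.π N) T))
  have hE : ∀ x : 𝒯.π N × T, x ∈ E ↔ f (r x.1) = p x.2 := fun x => Iff.rfl
  let q : E →* 𝒯.π N := (MonoidHom.fst (𝒯.π N) T).comp E.subtype
  let Z : E := ⟨(1, z), by rw [hE]; simp [hpz]⟩
  have hZc : ∀ g : E, Z * g = g * Z := by
    rintro ⟨⟨x, t⟩, h⟩
    apply Subtype.ext
    show ((1 : 𝒯.π N) * x, z * t) = (x * 1, t * z)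
    rw [one_mul, mul_one, hrel.central t]
  have hZn : ∀ n : ℕ, n ≠ 0 → Z ^ n ≠ 1 := by
    intro n hn h
    have h1 := congrArg (fun g : E => g.1.2) h
    exact hz n hn h1
  have hq : IsCentralExtension q := by
    refine ⟨?_, Z, ?_, hZc, hZn⟩
    · intro x
      obtain ⟨t, ht⟩ := QuotientGroup.mk'_surjective (Subgroup.zpowers z) (f (r x))
      exact ⟨⟨(x, t), by rw [hE]; exact ht.symm⟩, rfl⟩
    · ext ⟨⟨x, t⟩, h⟩
      constructor
      · intro hx
        have hx1 : x = 1 := hx
        subst hx1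
        rw [hE] at h
        simp only [map_one] at h
        obtain ⟨k, hk⟩ := (hp t).1 h.symm
        refine ⟨k, ?_⟩
        apply Subtype.ext
        have h1 : ((Z ^ k : E) : 𝒯.π N × T) = (1, z) ^ k := by
          rw [Subgroup.coe_zpow]
        show ((Z ^ k : E) : 𝒯.π N × T) = (1, t)
        rw [h1]
        refine Prod.ext ?_ ?_
        · show (1 : 𝒯.π N) ^ k = 1
          rw [one_zpow]
        · exact hk
      · rintro ⟨k, hk⟩
        have h1 := congrArg (fun g : E => g.1.1) hk
        have h2 : ((Z ^ k : E) : 𝒯.π N × T).1 = 1 := by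
          rw [Subgroup.coe_zpow]
          show (1 : 𝒯.π N) ^ k = 1
          rw [one_zpow]
        show x = 1
        rw [← h2]
        exact h1.symm
  obtain ⟨M, ⟨e⟩⟩ := 𝒯.circleBundle N q hq
  let A : E := ⟨(i xa, a), by rw [hE]; simp only [hri, hfa]⟩
  let B : E := ⟨(i xb, b), by rw [hE]; simp only [hri, hfb]⟩
  let S : E := ⟨(i xs, s), by rw [hE]; simp only [hri, hfs]⟩
  let U : E := ⟨(i xt, t), by rw [hE]; simp only [hri, hft]⟩
  have hR : Rel4 A B S U Z := by
    refine ⟨?_, hZc, ?_, ?_⟩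
    · apply Subtype.ext
      refine Prod.ext ?_ ?_
      · show i xa * i xb = 1 * (i xb * i xa)
        rw [one_mul, ← map_mul, big_comm, map_mul]
      · exact hrel.comm
    · apply Subtype.ext
      refine Prod.ext ?_ ?_
      · show i _ * i _ * (i _)⁻¹ = (i _) ^ 2
        rw [← map_inv, ← map_mul, ← map_mul, big_conj, map_pow]
      · exact hrel.conj
    · apply Subtype.ext
      refine Prod.ext ?_ ?_
      · show i _ * i _ * (i _)⁻¹ = i _
        rw [← map_inv, ← map_mul, ← map_mul, big_conj']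
      · exact hrel.conj'
  have hR' : Rel4 (e A) (e B) (e S) (e U) (e Z) := hR.map e.toMonoidHom e.surjective
  have hn : ∀ n : ℕ, n ≠ 0 → (e Z) ^ n ≠ 1 := by
    intro n hn h
    rw [← map_pow] at h
    exact hZn n hn (e.injective (h.trans (map_one e).symm))
  refine ⟨M, e Z, hR'.central, hn, fun H hH => hR'.mem H, fun H hH k h0 h1 h2 hreal => ?_⟩
  have hm := hR'.mem H
  have h3 : (e Z) ^ k ∈ H := H.zpow_mem hm k
  have h4 : (e Z) ^ k.natAbs ∈ Subgroup.zpowers ((e Z) ^ k) := by
    rcases Int.natAbs_eq k with h5 | h5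
    · rw [← zpow_natCast, ← h5]
      exact Subgroup.mem_zpowers _
    · refine ⟨-1, ?_⟩
      show ((e Z) ^ k) ^ (-1 : ℤ) = _
      rw [← zpow_mul, ← zpow_natCast]
      congr 1
      omega
  obtain ⟨j, hj⟩ := 𝒯.realised_torsionFree h3 hreal _ hm k.natAbs (by omega) h4
  have h5 : (e Z) ^ (k * j - 1) = 1 := by
    have h6 : ((e Z) ^ k) ^ j = e Z := hj
    rw [zpow_sub_one, mul_inv_eq_one, zpow_mul]
    exact h6
  have h7 := zpow_ne hn h5
  have h8 : k * j = 1 := by omega
  rcases Int.eq_one_or_neg_one_of_mul_eq_one h8 with h9 | h9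
  · exact h1 h9
  · exact h2 h9

end Pool.Agent.KS6_59.CE
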